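import Mathlib
import Pool.Agent.H6.RadialIntegral

/-!
# Graph volumes are not controlled by the volumes of slices

Let `X = P^2` with the Fubini-Study form, `n = 2` and `k = 1`.  For `0 < r < 1` the holomorphic
maps `f_N (w, z) = [1 : a z : b w^N]` with `b = (4 / r)^N`, `a = b^2 N^2` belong to one class
`𝓕_R` and all their slices `z ↦ f_N (w, z)` have graphs of area at most `2 π`, but the volume of
the graph of `f_N` tends to infinity with `N`.
-/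

set_option autoImplicit false

open MeasureTheory Set
open scoped ENNReal Real

namespace Pool.Agent.Results.MP_4af734_an.UnboundedGraphVolume

/-- The polydisc of radius `ρ` in `ℂ^m`. -/
def polydisc (m : ℕ) (ρ : ℝ) : Set (Fin m → ℂ) := {x | ∀ i, ‖x i‖ < ρ}

/-- The polydisc shell `A^m(r,1)`: the unit polydisc minus the closed polydisc of radius `r`. -/
def shell (m : ℕ) (r : ℝ) : Set (Fin m → ℂ) := polydisc m 1 \ {x | ∀ i, ‖x i‖ ≤ r}

/-- The Hermitian product `∑ a_i * conj b_i` on `ℂ^n`. -/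
def herm {n : ℕ} (a b : Fin n → ℂ) : ℂ := ∑ i, a i * (starRingEnd ℂ) (b i)

/-- For a map `f = [F] : ℂ^m → P^N` given by homogeneous coordinates `F : ℂ^m → ℂ^(N+1) \ {0}`,
the Hermitian matrix of the pull-back `f^* ω` of the Fubini-Study form
`ω = dd^c log |Z|^2`: its entries are
`∂_i ∂̄_j log |F|^2 = (⟨∂_i F, ∂_j F⟩ ⟨F, F⟩ - ⟨∂_i F, F⟩ ⟨F, ∂_j F⟩) / ⟨F, F⟩ ^ 2`. -/
noncomputable def fubiniStudy {m N : ℕ} (F : (Fin m → ℂ) → (Fin (N + 1) → ℂ)) (x : Fin m → ℂ) :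
    Matrix (Fin m) (Fin m) ℂ :=
  Matrix.of fun i j =>
    (herm (fderiv ℂ F x (Pi.single i 1)) (fderiv ℂ F x (Pi.single j 1)) * herm (F x) (F x) -
      herm (fderiv ℂ F x (Pi.single i 1)) (F x) * herm (F x) (fderiv ℂ F x (Pi.single j 1))) /
      herm (F x) (F x) ^ 2

/-- The volume of the part over `U ⊆ ℂ^m` of the graph of `f = [F] : ℂ^m → P^N`, that is,
`∫_U (dd^c |z|^2 + f^* ω)^m = ∫_U m! det (1 + H)`, where `H` is the matrix of `f^* ω`, with the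
normalisation for which `dd^c |z|^2` is the standard area form of `ℂ`. -/
noncomputable def graphVolume {m N : ℕ} (F : (Fin m → ℂ) → (Fin (N + 1) → ℂ))
    (U : Set (Fin m → ℂ)) : ℝ≥0∞ :=
  ∫⁻ x in U, ENNReal.ofReal ((m.factorial : ℝ) * (1 + fubiniStudy F x).det.re)

/-- The restriction of `F` to the slice `{z} × ℂ^k`. -/
def slice {p k N : ℕ} (F : (Fin (p + k) → ℂ) → (Fin (N + 1) → ℂ)) (z : Fin p → ℂ) :
    (Fin k → ℂ) → (Fin (N + 1) → ℂ) := fun y => F (Fin.append z y)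

/-- Membership of the map `f = [F] : Δ^(p+k) → P^N` in the class `𝓕_R` (for `n = p + k`), where
`F` is holomorphic and without zeros on the unit polydisc:

* the part of the graph of `f` over the shell has volume at most `R`;
* for every `z` in `Δ^p` the part over the shell of the graph of `f_z` has volume at most `R`. -/
structure InClass (p k N : ℕ) (r R : ℝ) (F : (Fin (p + k) → ℂ) → (Fin (N + 1) → ℂ)) : Prop where
  holomorphic : DifferentiableOn ℂ F (polydisc (p + k) 1)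
  ne_zero : ∀ x ∈ polydisc (p + k) 1, F x ≠ 0
  shell_volume : graphVolume F (shell (p + k) r) ≤ ENNReal.ofReal R
  slice_shell_volume : ∀ z ∈ polydisc p 1,
    graphVolume (slice F z) (shell k r) ≤ ENNReal.ofReal R

/-! ### The maps of the counterexample -/

/-- `F (w, z) = (1, a z, b w ^ N)`. -/
def theMap (a b : ℝ) (N : ℕ) (x : Fin (1 + 1) → ℂ) : Fin (2 + 1) → ℂ :=
  ![1, a * x 1, b * x 0 ^ N]

lemma differentiable_theMap (a b : ℝ) (N : ℕ) : Differentiable ℂ (theMap a b N) := by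
  unfold theMap
  rw [differentiable_pi]
  intro i
  fin_cases i
  · exact differentiable_const _
  · show Differentiable ℂ (fun x : Fin (1 + 1) → ℂ => (a : ℂ) * x 1)
    fun_prop
  · show Differentiable ℂ (fun x : Fin (1 + 1) → ℂ => (b : ℂ) * x 0 ^ N)
    fun_prop

lemma fderiv_apply_of_hasDerivAt {E F : Type*} [NormedAddCommGroup E] [NormedSpace ℂ E]
    [NormedAddCommGroup F] [NormedSpace ℂ F] {f : E → F} {x v : E} {d : F}
    (hf : DifferentiableAt ℂ f x) (h : HasDerivAt (fun s : ℂ => f (x + s • v)) d 0) :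
    fderiv ℂ f x v = d := by
  rw [← hf.lineDeriv_eq_fderiv]
  exact h.deriv

lemma fderiv_theMap (a b : ℝ) (N : ℕ) (x v : Fin (1 + 1) → ℂ) :
    fderiv ℂ (theMap a b N) x v = ![0, a * v 1, b * (N * x 0 ^ (N - 1) * v 0)] := by
  apply fderiv_apply_of_hasDerivAt (differentiable_theMap a b N).differentiableAt
  have hl : ∀ j, HasDerivAt (fun s : ℂ => x j + s * v j) (v j) 0 := by
    intro j
    simpa using ((hasDerivAt_id (0 : ℂ)).mul_const (v j)).const_add (x j)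
  rw [hasDerivAt_pi]
  intro i
  fin_cases i
  · exact hasDerivAt_const _ _
  · show HasDerivAt (fun s : ℂ => (a : ℂ) * (x 1 + s * v 1)) (a * v 1) 0
    exact (hl 1).const_mul _
  · show HasDerivAt (fun s : ℂ => (b : ℂ) * (x 0 + s * v 0) ^ N)
      (b * (N * x 0 ^ (N - 1) * v 0)) 0
    have := ((hl 0).pow N).const_mul (b : ℂ)
    refine this.congr_deriv ?_
    simp

lemma mul_conj' (z : ℂ) : z * (starRingEnd ℂ) z = ((‖z‖ ^ 2 : ℝ) : ℂ) := by
  rw [Complex.mul_conj, Complex.normSq_eq_norm_sq]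

/-- The density of the graph volume of `theMap`. -/
noncomputable def P (a b : ℝ) (N : ℕ) (s t : ℝ) : ℝ := 1 + a ^ 2 * t ^ 2 + b ^ 2 * s ^ (2 * N)

/-- `E = |∂_0 F|^2`. -/
noncomputable def E (b : ℝ) (N : ℕ) (s : ℝ) : ℝ := b ^ 2 * N ^ 2 * s ^ (2 * (N - 1))

lemma P_pos (a b : ℝ) (N : ℕ) (s t : ℝ) : 0 < P a b N s t := by
  unfold P
  have : 0 ≤ s ^ (2 * N) := by rw [pow_mul]; positivity
  positivity

lemma one_le_P (a b : ℝ) (N : ℕ) (s t : ℝ) : 1 ≤ P a b N s t := by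
  unfold P
  have : 0 ≤ s ^ (2 * N) := by rw [pow_mul]; positivity
  have h2 : 0 ≤ a ^ 2 * t ^ 2 := by positivity
  have h3 : 0 ≤ b ^ 2 * s ^ (2 * N) := by positivity
  linarith

lemma E_nonneg (b : ℝ) (N : ℕ) (s : ℝ) : 0 ≤ E b N s := by
  unfold E
  have : 0 ≤ s ^ (2 * (N - 1)) := by rw [pow_mul]; positivity
  positivity

lemma P_eq (a b : ℝ) (N : ℕ) (x : Fin (1 + 1) → ℂ) :
    ((P a b N ‖x 0‖ ‖x 1‖ : ℝ) : ℂ) = 1 + a ^ 2 * (x 1 * (starRingEnd ℂ) (x 1)) +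
      b ^ 2 * (x 0 * (starRingEnd ℂ) (x 0)) ^ N := by
  unfold P
  rw [mul_conj', mul_conj']
  push_cast
  ring

lemma herm_self_theMap (a b : ℝ) (N : ℕ) (x : Fin (1 + 1) → ℂ) :
    herm (theMap a b N x) (theMap a b N x) = (P a b N ‖x 0‖ ‖x 1‖ : ℝ) := by
  rw [P_eq]
  unfold herm
  rw [Fin.sum_univ_three]
  simp only [theMap, Matrix.cons_val_zero, Matrix.cons_val_one, Matrix.cons_val, map_one,
    map_mul, map_pow, Complex.conj_ofReal]
  ring

/-- The density of the graph volume of `theMap`. -/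
noncomputable def dens (a b : ℝ) (N : ℕ) (s t : ℝ) : ℝ :=
  1 + E b N s * (1 + a ^ 2 * t ^ 2) / P a b N s t ^ 2 +
    a ^ 2 * (1 + b ^ 2 * s ^ (2 * N)) / P a b N s t ^ 2 +
    E b N s * a ^ 2 / P a b N s t ^ 3

lemma det_theMap (a b : ℝ) (M : ℕ) (x : Fin (1 + 1) → ℂ) :
    (1 + fubiniStudy (theMap a b (M + 1)) x).det = (dens a b (M + 1) ‖x 0‖ ‖x 1‖ : ℝ) := by
  have hPne : ((P a b (M + 1) ‖x 0‖ ‖x 1‖ : ℝ) : ℂ) ≠ 0 := by
    exact_mod_cast (P_pos a b (M + 1) ‖x 0‖ ‖x 1‖).ne'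
  have hP := P_eq a b (M + 1) x
  have hE : ((E b (M + 1) ‖x 0‖ : ℝ) : ℂ) =
      b ^ 2 * (M + 1) ^ 2 * (x 0 * (starRingEnd ℂ) (x 0)) ^ M := by
    unfold E
    rw [mul_conj']
    push_cast
    ring
  have h0 : fderiv ℂ (theMap a b (M + 1)) x (Pi.single 0 1) =
      ![0, 0, b * ((M + 1) * x 0 ^ M)] := by
    rw [fderiv_theMap]
    simp
  have h1 : fderiv ℂ (theMap a b (M + 1)) x (Pi.single 1 1) = ![0, (a : ℂ), 0] := by
    rw [fderiv_theMap]
    simp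
  have e00 : herm (![0, 0, b * ((M + 1) * x 0 ^ M)] : Fin 3 → ℂ)
      ![0, 0, b * ((M + 1) * x 0 ^ M)] =
      b ^ 2 * (M + 1) ^ 2 * (x 0 * (starRingEnd ℂ) (x 0)) ^ M := by
    unfold herm
    simp [Fin.sum_univ_three]
    ring
  have e11 : herm (![0, (a : ℂ), 0] : Fin 3 → ℂ) ![0, (a : ℂ), 0] = a ^ 2 := by
    unfold herm
    simp [Fin.sum_univ_three]
    ring
  have e01 : herm (![0, 0, b * ((M + 1) * x 0 ^ M)] : Fin 3 → ℂ) ![0, (a : ℂ), 0] = 0 := by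
    unfold herm
    simp [Fin.sum_univ_three]
  have e10 : herm (![0, (a : ℂ), 0] : Fin 3 → ℂ) ![0, 0, b * ((M + 1) * x 0 ^ M)] = 0 := by
    unfold herm
    simp [Fin.sum_univ_three]
  have e0F : herm (![0, 0, b * ((M + 1) * x 0 ^ M)] : Fin 3 → ℂ) (theMap a b (M + 1) x) =
      b ^ 2 * (M + 1) * x 0 ^ M * (starRingEnd ℂ) (x 0) ^ (M + 1) := by
    unfold herm
    simp [Fin.sum_univ_three, theMap]
    ring
  have eF0 : herm (theMap a b (M + 1) x) (![0, 0, b * ((M + 1) * x 0 ^ M)] : Fin 3 → ℂ) =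
      b ^ 2 * (M + 1) * x 0 ^ (M + 1) * (starRingEnd ℂ) (x 0) ^ M := by
    unfold herm
    simp [Fin.sum_univ_three, theMap]
    ring
  have e1F : herm (![0, (a : ℂ), 0] : Fin 3 → ℂ) (theMap a b (M + 1) x) =
      a ^ 2 * (starRingEnd ℂ) (x 1) := by
    unfold herm
    simp [Fin.sum_univ_three, theMap]
    ring
  have eF1 : herm (theMap a b (M + 1) x) (![0, (a : ℂ), 0] : Fin 3 → ℂ) =
      a ^ 2 * x 1 := by
    unfold herm
    simp [Fin.sum_univ_three, theMap]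
    ring
  have hdet : (1 + fubiniStudy (theMap a b (M + 1)) x).det =
      (1 + fubiniStudy (theMap a b (M + 1)) x 0 0) * (1 + fubiniStudy (theMap a b (M + 1)) x 1 1) -
      fubiniStudy (theMap a b (M + 1)) x 0 1 * fubiniStudy (theMap a b (M + 1)) x 1 0 := by
    rw [Matrix.det_fin_two]
    simp
  rw [hdet]
  have g00 : fubiniStudy (theMap a b (M + 1)) x 0 0 =
      (b ^ 2 * (M + 1) ^ 2 * (x 0 * (starRingEnd ℂ) (x 0)) ^ M * (P a b (M + 1) ‖x 0‖ ‖x 1‖ : ℝ) -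
      b ^ 2 * (M + 1) * x 0 ^ M * (starRingEnd ℂ) (x 0) ^ (M + 1) *
      (b ^ 2 * (M + 1) * x 0 ^ (M + 1) * (starRingEnd ℂ) (x 0) ^ M)) /
      (P a b (M + 1) ‖x 0‖ ‖x 1‖ : ℝ) ^ 2 := by
    show (herm (fderiv ℂ (theMap a b (M + 1)) x (Pi.single 0 1))
      (fderiv ℂ (theMap a b (M + 1)) x (Pi.single 0 1)) *
      herm (theMap a b (M + 1) x) (theMap a b (M + 1) x) -
      herm (fderiv ℂ (theMap a b (M + 1)) x (Pi.single 0 1)) (theMap a b (M + 1) x) *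
      herm (theMap a b (M + 1) x) (fderiv ℂ (theMap a b (M + 1)) x (Pi.single 0 1))) /
      herm (theMap a b (M + 1) x) (theMap a b (M + 1) x) ^ 2 = _
    rw [h0, e00, e0F, eF0, herm_self_theMap]
  have g11 : fubiniStudy (theMap a b (M + 1)) x 1 1 =
      (a ^ 2 * (P a b (M + 1) ‖x 0‖ ‖x 1‖ : ℝ) -
      a ^ 2 * (starRingEnd ℂ) (x 1) * (a ^ 2 * x 1)) /
      (P a b (M + 1) ‖x 0‖ ‖x 1‖ : ℝ) ^ 2 := by
    show (herm (fderiv ℂ (theMap a b (M + 1)) x (Pi.single 1 1))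
      (fderiv ℂ (theMap a b (M + 1)) x (Pi.single 1 1)) *
      herm (theMap a b (M + 1) x) (theMap a b (M + 1) x) -
      herm (fderiv ℂ (theMap a b (M + 1)) x (Pi.single 1 1)) (theMap a b (M + 1) x) *
      herm (theMap a b (M + 1) x) (fderiv ℂ (theMap a b (M + 1)) x (Pi.single 1 1))) /
      herm (theMap a b (M + 1) x) (theMap a b (M + 1) x) ^ 2 = _
    rw [h1, e11, e1F, eF1, herm_self_theMap]
  have g01 : fubiniStudy (theMap a b (M + 1)) x 0 1 =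
      (0 * (P a b (M + 1) ‖x 0‖ ‖x 1‖ : ℝ) -
      b ^ 2 * (M + 1) * x 0 ^ M * (starRingEnd ℂ) (x 0) ^ (M + 1) * (a ^ 2 * x 1)) /
      (P a b (M + 1) ‖x 0‖ ‖x 1‖ : ℝ) ^ 2 := by
    show (herm (fderiv ℂ (theMap a b (M + 1)) x (Pi.single 0 1))
      (fderiv ℂ (theMap a b (M + 1)) x (Pi.single 1 1)) *
      herm (theMap a b (M + 1) x) (theMap a b (M + 1) x) -
      herm (fderiv ℂ (theMap a b (M + 1)) x (Pi.single 0 1)) (theMap a b (M + 1) x) *
      herm (theMap a b (M + 1) x) (fderiv ℂ (theMap a b (M + 1)) x (Pi.single 1 1))) /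
      herm (theMap a b (M + 1) x) (theMap a b (M + 1) x) ^ 2 = _
    rw [h0, h1, e01, e0F, eF1, herm_self_theMap]
  have g10 : fubiniStudy (theMap a b (M + 1)) x 1 0 =
      (0 * (P a b (M + 1) ‖x 0‖ ‖x 1‖ : ℝ) -
      a ^ 2 * (starRingEnd ℂ) (x 1) *
      (b ^ 2 * (M + 1) * x 0 ^ (M + 1) * (starRingEnd ℂ) (x 0) ^ M)) /
      (P a b (M + 1) ‖x 0‖ ‖x 1‖ : ℝ) ^ 2 := by
    show (herm (fderiv ℂ (theMap a b (M + 1)) x (Pi.single 1 1))
      (fderiv ℂ (theMap a b (M + 1)) x (Pi.single 0 1)) *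
      herm (theMap a b (M + 1) x) (theMap a b (M + 1) x) -
      herm (fderiv ℂ (theMap a b (M + 1)) x (Pi.single 1 1)) (theMap a b (M + 1) x) *
      herm (theMap a b (M + 1) x) (fderiv ℂ (theMap a b (M + 1)) x (Pi.single 0 1))) /
      herm (theMap a b (M + 1) x) (theMap a b (M + 1) x) ^ 2 = _
    rw [h0, h1, e10, e1F, eF0, herm_self_theMap]
  rw [g00, g11, g01, g10]
  have hR : ((dens a b (M + 1) ‖x 0‖ ‖x 1‖ : ℝ) : ℂ) =
      1 + (b ^ 2 * (M + 1) ^ 2 * (x 0 * (starRingEnd ℂ) (x 0)) ^ M) *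
        (1 + a ^ 2 * (x 1 * (starRingEnd ℂ) (x 1))) / (P a b (M + 1) ‖x 0‖ ‖x 1‖ : ℝ) ^ 2 +
      a ^ 2 * (1 + b ^ 2 * (x 0 * (starRingEnd ℂ) (x 0)) ^ (M + 1)) /
        (P a b (M + 1) ‖x 0‖ ‖x 1‖ : ℝ) ^ 2 +
      (b ^ 2 * (M + 1) ^ 2 * (x 0 * (starRingEnd ℂ) (x 0)) ^ M) * a ^ 2 /
        (P a b (M + 1) ‖x 0‖ ‖x 1‖ : ℝ) ^ 3 := by
    unfold dens
    push_cast
    rw [hE, mul_conj', mul_conj']
    push_cast
    ring
  rw [hR]
  set Q : ℂ := ((P a b (M + 1) ‖x 0‖ ‖x 1‖ : ℝ) : ℂ) with hQ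
  set X := x 0
  set Y := x 1
  set Xc := (starRingEnd ℂ) X
  set Yc := (starRingEnd ℂ) Y
  field_simp
  rw [hP]
  ring

lemma slice_eq (a b : ℝ) (N : ℕ) (z : Fin 1 → ℂ) :
    slice (theMap a b N) z = fun y : Fin 1 → ℂ => (![1, a * y 0, b * z 0 ^ N] : Fin 3 → ℂ) := by
  funext y
  unfold slice theMap
  have h1 : Fin.append z y 1 = y 0 := Fin.append_right z y 0
  have h0 : Fin.append z y 0 = z 0 := Fin.append_left z y 0
  rw [h0, h1]

lemma det_slice (a b : ℝ) (N : ℕ) (z y : Fin 1 → ℂ) :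
    (1 + fubiniStudy (slice (theMap a b N) z) y).det =
      (1 + a ^ 2 * (1 + b ^ 2 * ‖z 0‖ ^ (2 * N)) / P a b N ‖z 0‖ ‖y 0‖ ^ 2 : ℝ) := by
  rw [slice_eq]
  set G : (Fin 1 → ℂ) → (Fin 3 → ℂ) :=
    fun y : Fin 1 → ℂ => (![1, a * y 0, b * z 0 ^ N] : Fin 3 → ℂ) with hG
  have hPne : ((P a b N ‖z 0‖ ‖y 0‖ : ℝ) : ℂ) ≠ 0 := by
    exact_mod_cast (P_pos a b N ‖z 0‖ ‖y 0‖).ne'
  have hP : ((P a b N ‖z 0‖ ‖y 0‖ : ℝ) : ℂ) = 1 + a ^ 2 * (y 0 * (starRingEnd ℂ) (y 0)) +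
      b ^ 2 * (z 0 * (starRingEnd ℂ) (z 0)) ^ N := by
    unfold P
    rw [mul_conj', mul_conj']
    push_cast
    ring
  have hdiff : Differentiable ℂ G := by
    rw [differentiable_pi]
    intro i
    fin_cases i
    · exact differentiable_const _
    · show Differentiable ℂ (fun x : Fin 1 → ℂ => (a : ℂ) * x 0)
      fun_prop
    · exact differentiable_const _
  have hd : fderiv ℂ G y (Pi.single 0 1) = ![0, (a : ℂ), 0] := by
    apply fderiv_apply_of_hasDerivAt hdiff.differentiableAt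
    rw [hasDerivAt_pi]
    intro i
    fin_cases i
    · exact hasDerivAt_const _ _
    · show HasDerivAt (fun s : ℂ => (a : ℂ) * (y 0 + s * (Pi.single 0 1 : Fin 1 → ℂ) 0)) a 0
      have h := (((hasDerivAt_id (0 : ℂ)).mul_const
        ((Pi.single 0 1 : Fin 1 → ℂ) 0)).const_add (y 0)).const_mul (a : ℂ)
      exact h.congr_deriv (by simp)
    · exact hasDerivAt_const _ _
  have eFF : herm (G y) (G y) = (P a b N ‖z 0‖ ‖y 0‖ : ℝ) := by
    rw [hP]
    unfold herm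
    rw [Fin.sum_univ_three]
    simp only [hG, Matrix.cons_val_zero, Matrix.cons_val_one, Matrix.cons_val, map_one,
      map_mul, map_pow, Complex.conj_ofReal]
    ring
  have e11 : herm (![0, (a : ℂ), 0] : Fin 3 → ℂ) ![0, (a : ℂ), 0] = a ^ 2 := by
    unfold herm
    simp [Fin.sum_univ_three]
    ring
  have e1F : herm (![0, (a : ℂ), 0] : Fin 3 → ℂ) (G y) = a ^ 2 * (starRingEnd ℂ) (y 0) := by
    unfold herm
    simp [Fin.sum_univ_three, hG]
    ring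
  have eF1 : herm (G y) (![0, (a : ℂ), 0] : Fin 3 → ℂ) = a ^ 2 * y 0 := by
    unfold herm
    simp [Fin.sum_univ_three, hG]
    ring
  have g : fubiniStudy G y 0 0 = (a ^ 2 * (P a b N ‖z 0‖ ‖y 0‖ : ℝ) -
      a ^ 2 * (starRingEnd ℂ) (y 0) * (a ^ 2 * y 0)) / (P a b N ‖z 0‖ ‖y 0‖ : ℝ) ^ 2 := by
    show (herm (fderiv ℂ G y (Pi.single 0 1)) (fderiv ℂ G y (Pi.single 0 1)) * herm (G y) (G y) -
      herm (fderiv ℂ G y (Pi.single 0 1)) (G y) * herm (G y) (fderiv ℂ G y (Pi.single 0 1))) /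
      herm (G y) (G y) ^ 2 = _
    rw [hd, e11, e1F, eF1, eFF]
  have hdet : (1 + fubiniStudy G y).det = 1 + fubiniStudy G y 0 0 := by
    rw [Matrix.det_fin_one]
    simp
  rw [hdet, g]
  push_cast
  have hz : (b : ℂ) ^ 2 * (‖z 0‖ : ℂ) ^ (2 * N) =
      b ^ 2 * (z 0 * (starRingEnd ℂ) (z 0)) ^ N := by
    rw [mul_conj']
    push_cast
    ring
  rw [hz]
  field_simp
  rw [hP]
  ring

/-! ### Radial integrals -/

open Pool.Agent.H6 in
lemma integral_T1 (a c : ℝ) (hc : 0 < c) :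
    ∫⁻ y in Metric.ball (0 : ℂ) 1, ENNReal.ofReal (a ^ 2 * c / (c + a ^ 2 * ‖y‖ ^ 2) ^ 2) ≤
      ENNReal.ofReal π := by
  have hpos : ∀ y : ℝ, 0 < c + a ^ 2 * y ^ 2 := fun y => by positivity
  rw [lintegral_ball_norm 1 zero_le_one (fun y => a ^ 2 * c / (c + a ^ 2 * y ^ 2) ^ 2)
    (by
      apply Continuous.div (by fun_prop) (by fun_prop)
      intro y; exact pow_ne_zero _ (hpos y).ne')
    (fun y _ => by have := hpos y; positivity)
    (fun y => -(π * c) / (c + a ^ 2 * y ^ 2))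
    (by
      intro y _
      have h1 : HasDerivAt (fun y : ℝ => c + a ^ 2 * y ^ 2) (a ^ 2 * (2 * y)) y := by
        have := ((hasDerivAt_pow 2 y).const_mul (a ^ 2)).const_add c
        exact this.congr_deriv (by norm_num)
      have := (hasDerivAt_const y (-(π * c))).div h1 (hpos y).ne'
      refine this.congr_deriv ?_
      have := (hpos y).ne'
      field_simp
      ring)]
  apply ENNReal.ofReal_le_ofReal
  have h1 := hpos 1
  have h2 := hpos 0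
  have h3 : -(π * c) / (c + a ^ 2 * 1 ^ 2) ≤ 0 := by
    apply div_nonpos_of_nonpos_of_nonneg
    · have := Real.pi_pos
      nlinarith
    · exact h1.le
  have h4 : -(π * c) / (c + a ^ 2 * 0 ^ 2) = -π := by
    have : c + a ^ 2 * 0 ^ 2 = c := by ring
    rw [this]
    field_simp
  show -(π * c) / (c + a ^ 2 * 1 ^ 2) - -(π * c) / (c + a ^ 2 * 0 ^ 2) ≤ π
  rw [h4]
  linarith

open Pool.Agent.H6 in
lemma integral_T3 (a c : ℝ) (hc : 0 < c) :
    ∫⁻ y in Metric.ball (0 : ℂ) 1, ENNReal.ofReal (a ^ 2 / (c + a ^ 2 * ‖y‖ ^ 2) ^ 3) ≤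
      ENNReal.ofReal (π / (2 * c ^ 2)) := by
  have hpos : ∀ y : ℝ, 0 < c + a ^ 2 * y ^ 2 := fun y => by positivity
  rw [lintegral_ball_norm 1 zero_le_one (fun y => a ^ 2 / (c + a ^ 2 * y ^ 2) ^ 3)
    (by
      apply Continuous.div (by fun_prop) (by fun_prop)
      intro y; exact pow_ne_zero _ (hpos y).ne')
    (fun y _ => by have := hpos y; positivity)
    (fun y => -(π / 2) / (c + a ^ 2 * y ^ 2) ^ 2)
    (by
      intro y _
      have h1 : HasDerivAt (fun y : ℝ => c + a ^ 2 * y ^ 2) (a ^ 2 * (2 * y)) y := by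
        have := ((hasDerivAt_pow 2 y).const_mul (a ^ 2)).const_add c
        exact this.congr_deriv (by norm_num)
      have := (hasDerivAt_const y (-(π / 2))).div (h1.pow 2) (pow_ne_zero _ (hpos y).ne')
      refine this.congr_deriv ?_
      have := (hpos y).ne'
      simp only [Pi.pow_apply]
      field_simp
      ring)]
  apply ENNReal.ofReal_le_ofReal
  have h1 := hpos 1
  have h3 : -(π / 2) / (c + a ^ 2 * 1 ^ 2) ^ 2 ≤ 0 := by
    apply div_nonpos_of_nonpos_of_nonneg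
    · have := Real.pi_pos
      linarith
    · positivity
  have h4 : -(π / 2) / (c + a ^ 2 * 0 ^ 2) ^ 2 = -(π / (2 * c ^ 2)) := by
    have : c + a ^ 2 * 0 ^ 2 = c := by ring
    rw [this]
    field_simp
  show -(π / 2) / (c + a ^ 2 * 1 ^ 2) ^ 2 - -(π / 2) / (c + a ^ 2 * 0 ^ 2) ^ 2 ≤ _
  rw [h4]
  linarith

open Pool.Agent.H6 in
lemma integral_T2 (a : ℝ) (ha : 0 < a) :
    ∫⁻ y in Metric.ball (0 : ℂ) 1, ENNReal.ofReal (1 / (1 + a ^ 2 * ‖y‖ ^ 2)) ≤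
      ENNReal.ofReal (2 * π / a) := by
  have hpos : ∀ y : ℝ, 0 < 1 + a ^ 2 * y ^ 2 := fun y => by positivity
  rw [lintegral_ball_norm 1 zero_le_one (fun y => 1 / (1 + a ^ 2 * y ^ 2))
    (by
      apply Continuous.div (by fun_prop) (by fun_prop)
      intro y; exact (hpos y).ne')
    (fun y _ => by have := hpos y; positivity)
    (fun y => π / a ^ 2 * Real.log (1 + a ^ 2 * y ^ 2))
    (by
      intro y _
      have h1 : HasDerivAt (fun y : ℝ => 1 + a ^ 2 * y ^ 2) (a ^ 2 * (2 * y)) y := by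
        have := ((hasDerivAt_pow 2 y).const_mul (a ^ 2)).const_add 1
        exact this.congr_deriv (by norm_num)
      have := (h1.log (hpos y).ne').const_mul (π / a ^ 2)
      refine this.congr_deriv ?_
      have := (hpos y).ne'
      field_simp)]
  apply ENNReal.ofReal_le_ofReal
  show π / a ^ 2 * Real.log (1 + a ^ 2 * 1 ^ 2) - π / a ^ 2 * Real.log (1 + a ^ 2 * 0 ^ 2) ≤ _
  have h1 : Real.log (1 + a ^ 2 * 1 ^ 2) ≤ 2 * a := by
    have h2 : Real.log (1 + a ^ 2 * 1 ^ 2) ≤ Real.log ((1 + a) ^ 2) := by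
      apply Real.log_le_log (by positivity)
      nlinarith
    rw [Real.log_pow] at h2
    have h3 := Real.log_le_sub_one_of_pos (show (0 : ℝ) < 1 + a by linarith)
    push_cast at h2
    linarith
  have h2 : Real.log (1 + a ^ 2 * 0 ^ 2) = 0 := by simp
  rw [h2, mul_zero, sub_zero]
  calc π / a ^ 2 * Real.log (1 + a ^ 2 * 1 ^ 2) ≤ π / a ^ 2 * (2 * a) := by
        apply mul_le_mul_of_nonneg_left h1
        positivity
    _ = 2 * π / a := by field_simp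

open Pool.Agent.H6 in
lemma integral_E (b ρ : ℝ) (hρ : 0 ≤ ρ) (M : ℕ) :
    ∫⁻ w in Metric.ball (0 : ℂ) ρ, ENNReal.ofReal (E b (M + 1) ‖w‖) =
      ENNReal.ofReal (π * (M + 1) * b ^ 2 * ρ ^ (2 * (M + 1))) := by
  rw [lintegral_ball_norm ρ hρ (fun y => E b (M + 1) y)
    (by unfold E; fun_prop)
    (fun y _ => E_nonneg b (M + 1) y)
    (fun y => π * (M + 1) * b ^ 2 * y ^ (2 * (M + 1)))
    (by
      intro y _
      have := (hasDerivAt_pow (2 * (M + 1)) y).const_mul (π * (M + 1) * b ^ 2)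
      refine this.congr_deriv ?_
      unfold E
      have h1 : 2 * (M + 1) - 1 = 2 * M + 1 := by omega
      have h2 : 2 * (M + 1 - 1) = 2 * M := by omega
      rw [h1, h2]
      push_cast
      ring)]
  simp

lemma volume_ball_one : volume (Metric.ball (0 : ℂ) 1) = ENNReal.ofReal π := by
  rw [Complex.volume_ball, ← NNReal.coe_real_pi, ENNReal.ofReal_coe_nnreal]
  simp

lemma E_le (b : ℝ) (N : ℕ) {s : ℝ} (hs0 : 0 ≤ s) (hs : s ≤ 1) : E b N s ≤ b ^ 2 * N ^ 2 := by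
  unfold E
  have : s ^ (2 * (N - 1)) ≤ 1 := pow_le_one₀ hs0 hs
  nlinarith [sq_nonneg b, sq_nonneg (N : ℝ), mul_nonneg (sq_nonneg b) (sq_nonneg (N : ℝ))]

lemma dens_le (a b : ℝ) (N : ℕ) (s t : ℝ) (hs0 : 0 ≤ s) (hs : s ≤ 1) :
    dens a b N s t ≤ 1 + b ^ 2 * N ^ 2 * (1 / (1 + a ^ 2 * t ^ 2)) +
      a ^ 2 * (1 + b ^ 2 * s ^ (2 * N)) / ((1 + b ^ 2 * s ^ (2 * N)) + a ^ 2 * t ^ 2) ^ 2 +
      E b N s * a ^ 2 / P a b N s t ^ 3 := by
  have hP : P a b N s t = (1 + b ^ 2 * s ^ (2 * N)) + a ^ 2 * t ^ 2 := by unfold P; ring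
  have h1 : E b N s * (1 + a ^ 2 * t ^ 2) / P a b N s t ^ 2 ≤
      b ^ 2 * N ^ 2 * (1 / (1 + a ^ 2 * t ^ 2)) := by
    have hq : 0 < 1 + a ^ 2 * t ^ 2 := by positivity
    have hs2 : 0 ≤ b ^ 2 * s ^ (2 * N) := by positivity
    have hPq : (1 + a ^ 2 * t ^ 2) ^ 2 ≤ P a b N s t ^ 2 := by
      apply pow_le_pow_left₀ hq.le
      rw [hP]; linarith
    calc E b N s * (1 + a ^ 2 * t ^ 2) / P a b N s t ^ 2
        ≤ (b ^ 2 * N ^ 2) * (1 + a ^ 2 * t ^ 2) / (1 + a ^ 2 * t ^ 2) ^ 2 := by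
          apply div_le_div₀ (by positivity) _ (by positivity) hPq
          exact mul_le_mul_of_nonneg_right (E_le b N hs0 hs) hq.le
      _ = b ^ 2 * N ^ 2 * (1 / (1 + a ^ 2 * t ^ 2)) := by
          field_simp
  unfold dens
  rw [← hP]
  linarith

lemma inner_bound (a b : ℝ) (ha : 0 < a) (N : ℕ) (w : ℂ) (hw : ‖w‖ ≤ 1) (S : Set ℂ)
    (hS : S ⊆ Metric.ball 0 1) (K : ℝ) (hK : 0 ≤ K)
    (h3 : ∫⁻ y in S, ENNReal.ofReal (E b N ‖w‖ * a ^ 2 / P a b N ‖w‖ ‖y‖ ^ 3) ≤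
      ENNReal.ofReal K) :
    ∫⁻ y in S, ENNReal.ofReal (2 * dens a b N ‖w‖ ‖y‖) ≤
      ENNReal.ofReal (2 * (π + b ^ 2 * N ^ 2 * (2 * π / a) + π + K)) := by
  have hcpos : 0 < 1 + b ^ 2 * ‖w‖ ^ (2 * N) := by positivity
  have hpt : ∀ y : ℂ, ENNReal.ofReal (2 * dens a b N ‖w‖ ‖y‖) ≤
      2 * (((1 + ENNReal.ofReal (b ^ 2 * N ^ 2) *
        ENNReal.ofReal (1 / (1 + a ^ 2 * ‖y‖ ^ 2))) +
        ENNReal.ofReal (a ^ 2 * (1 + b ^ 2 * ‖w‖ ^ (2 * N)) /
          ((1 + b ^ 2 * ‖w‖ ^ (2 * N)) + a ^ 2 * ‖y‖ ^ 2) ^ 2)) +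
        ENNReal.ofReal (E b N ‖w‖ * a ^ 2 / P a b N ‖w‖ ‖y‖ ^ 3)) := by
    intro y
    have hE := E_nonneg b N ‖w‖
    have hPp := P_pos a b N ‖w‖ ‖y‖
    rw [ENNReal.ofReal_mul (by norm_num), ENNReal.ofReal_ofNat]
    gcongr
    rw [← ENNReal.ofReal_mul (by positivity), ← ENNReal.ofReal_one,
      ← ENNReal.ofReal_add (by positivity) (by positivity),
      ← ENNReal.ofReal_add (by positivity) (by positivity),
      ← ENNReal.ofReal_add (by positivity) (by positivity)]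
    exact ENNReal.ofReal_le_ofReal (dens_le a b N ‖w‖ ‖y‖ (norm_nonneg w) hw)
  have hm1 : Measurable (fun y : ℂ => ENNReal.ofReal (1 / (1 + a ^ 2 * ‖y‖ ^ 2))) := by
    fun_prop
  have hm2 : Measurable (fun y : ℂ => ENNReal.ofReal (a ^ 2 * (1 + b ^ 2 * ‖w‖ ^ (2 * N)) /
          ((1 + b ^ 2 * ‖w‖ ^ (2 * N)) + a ^ 2 * ‖y‖ ^ 2) ^ 2)) := by
    fun_prop
  have hm3 : Measurable (fun y : ℂ =>
      ENNReal.ofReal (E b N ‖w‖ * a ^ 2 / P a b N ‖w‖ ‖y‖ ^ 3)) := by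
    unfold P
    fun_prop
  refine (lintegral_mono hpt).trans ?_
  rw [lintegral_const_mul _ (by fun_prop), lintegral_add_left (by fun_prop),
    lintegral_add_left (by fun_prop), lintegral_add_left (by fun_prop),
    lintegral_const_mul _ hm1]
  have i0 : ∫⁻ _ in S, (1 : ℝ≥0∞) ≤ ENNReal.ofReal π := by
    refine (lintegral_mono_set hS).trans ?_
    rw [setLIntegral_one, volume_ball_one]
  have i1 := (lintegral_mono_set (μ := volume)
    (f := fun y : ℂ => ENNReal.ofReal (1 / (1 + a ^ 2 * ‖y‖ ^ 2))) hS).trans (integral_T2 a ha)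
  have i2 := (lintegral_mono_set (μ := volume)
    (f := fun y : ℂ => ENNReal.ofReal (a ^ 2 * (1 + b ^ 2 * ‖w‖ ^ (2 * N)) /
          ((1 + b ^ 2 * ‖w‖ ^ (2 * N)) + a ^ 2 * ‖y‖ ^ 2) ^ 2)) hS).trans
    (integral_T1 a _ hcpos)
  have hpi := Real.pi_pos
  have hR : ENNReal.ofReal (2 * (π + b ^ 2 * N ^ 2 * (2 * π / a) + π + K)) =
      2 * (ENNReal.ofReal π + ENNReal.ofReal (b ^ 2 * N ^ 2) * ENNReal.ofReal (2 * π / a) +
        ENNReal.ofReal π + ENNReal.ofReal K) := by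
    rw [ENNReal.ofReal_mul (p := 2) (by norm_num), ENNReal.ofReal_ofNat,
      ENNReal.ofReal_add (by positivity) hK, ENNReal.ofReal_add (by positivity) (by positivity),
      ENNReal.ofReal_add (by positivity) (by positivity),
      ENNReal.ofReal_mul (p := b ^ 2 * (N : ℝ) ^ 2) (by positivity)]
  rw [hR]
  gcongr

/-- For `‖w‖ > r` the leading term is small by the choice of `b`. -/
lemma T3_w (a b r : ℝ) (N : ℕ) (hN : 1 ≤ N) (hr : 0 < r) (hb : b = (4 / r) ^ N) (w : ℂ)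
    (hw : r < ‖w‖) :
    ∫⁻ y in Metric.ball (0 : ℂ) 1, ENNReal.ofReal (E b N ‖w‖ * a ^ 2 / P a b N ‖w‖ ‖y‖ ^ 3) ≤
      ENNReal.ofReal (π / r ^ 2) := by
  have hcpos : 0 < 1 + b ^ 2 * ‖w‖ ^ (2 * N) := by positivity
  have hE := E_nonneg b N ‖w‖
  have h1 : ∀ y : ℂ, ENNReal.ofReal (E b N ‖w‖ * a ^ 2 / P a b N ‖w‖ ‖y‖ ^ 3) =
      ENNReal.ofReal (E b N ‖w‖) * ENNReal.ofReal (a ^ 2 /
        ((1 + b ^ 2 * ‖w‖ ^ (2 * N)) + a ^ 2 * ‖y‖ ^ 2) ^ 3) := by
    intro y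
    rw [← ENNReal.ofReal_mul hE, ← mul_div_assoc]
    congr 3
    unfold P
    ring
  simp_rw [h1]
  rw [lintegral_const_mul _ (by fun_prop)]
  refine (mul_le_mul_right (integral_T3 a _ hcpos) _).trans ?_
  rw [← ENNReal.ofReal_mul hE]
  apply ENNReal.ofReal_le_ofReal
  have hw0 : 0 < ‖w‖ := hr.trans hw
  have hb2 : b ^ 2 * r ^ (2 * N) = 16 ^ N := by
    rw [hb, pow_mul r 2 N, ← pow_mul, mul_comm N 2, pow_mul, ← mul_pow]
    congr 1
    field_simp
    norm_num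
  have h16 : (N : ℝ) ^ 2 ≤ 16 ^ N := by
    have h2 : (N : ℝ) ≤ 4 ^ N := by
      have : N < 4 ^ N := Nat.lt_pow_self (by norm_num)
      exact_mod_cast this.le
    calc (N : ℝ) ^ 2 ≤ (4 ^ N) ^ 2 := pow_le_pow_left₀ (by positivity) h2 2
      _ = 16 ^ N := by rw [← pow_mul, mul_comm N 2, pow_mul]; norm_num
  have hrN : r ^ (2 * N) ≤ ‖w‖ ^ (2 * N) := pow_le_pow_left₀ hr.le hw.le _
  have hβ : (N : ℝ) ^ 2 ≤ b ^ 2 * ‖w‖ ^ (2 * N) := by
    calc (N : ℝ) ^ 2 ≤ 16 ^ N := h16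
      _ = b ^ 2 * r ^ (2 * N) := hb2.symm
      _ ≤ b ^ 2 * ‖w‖ ^ (2 * N) := mul_le_mul_of_nonneg_left hrN (sq_nonneg b)
  have hEr : E b N ‖w‖ * r ^ 2 ≤ (b ^ 2 * ‖w‖ ^ (2 * N)) ^ 2 := by
    unfold E
    calc b ^ 2 * N ^ 2 * ‖w‖ ^ (2 * (N - 1)) * r ^ 2
        ≤ b ^ 2 * N ^ 2 * ‖w‖ ^ (2 * (N - 1)) * ‖w‖ ^ 2 := by
          apply mul_le_mul_of_nonneg_left _ (by positivity)
          exact pow_le_pow_left₀ hr.le hw.le 2
      _ = b ^ 2 * ‖w‖ ^ (2 * N) * N ^ 2 := by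
          have : 2 * N = 2 * (N - 1) + 2 := by omega
          rw [this, pow_add]
          ring
      _ ≤ b ^ 2 * ‖w‖ ^ (2 * N) * (b ^ 2 * ‖w‖ ^ (2 * N)) := by
          apply mul_le_mul_of_nonneg_left hβ (by positivity)
      _ = (b ^ 2 * ‖w‖ ^ (2 * N)) ^ 2 := by ring
  have hc2 : (b ^ 2 * ‖w‖ ^ (2 * N)) ^ 2 ≤ (1 + b ^ 2 * ‖w‖ ^ (2 * N)) ^ 2 := by
    apply pow_le_pow_left₀ (by positivity)
    linarith
  rw [← mul_div_assoc, div_le_div_iff₀ (by positivity) (by positivity)]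
  have hpi := Real.pi_pos
  have hc2' : 0 ≤ (1 + b ^ 2 * ‖w‖ ^ (2 * N)) ^ 2 := by positivity
  have := hEr.trans hc2
  calc E b N ‖w‖ * π * r ^ 2 = π * (E b N ‖w‖ * r ^ 2) := by ring
    _ ≤ π * (2 * (1 + b ^ 2 * ‖w‖ ^ (2 * N)) ^ 2) := by
        apply mul_le_mul_of_nonneg_left _ hpi.le
        linarith

/-- For `‖y‖ > r` the leading term is small by the choice of `a`. -/
lemma T3_y (a b r : ℝ) (N : ℕ) (hr : 0 < r) (ha1 : 1 ≤ a)
    (ha : a = b ^ 2 * N ^ 2) (w : ℂ) (hw : ‖w‖ ≤ 1) :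
    ∫⁻ y in Metric.ball (0 : ℂ) 1 \ Metric.closedBall 0 r,
      ENNReal.ofReal (E b N ‖w‖ * a ^ 2 / P a b N ‖w‖ ‖y‖ ^ 3) ≤
      ENNReal.ofReal (π / r ^ 6) := by
  have hpt : ∀ y ∈ Metric.ball (0 : ℂ) 1 \ Metric.closedBall 0 r,
      ENNReal.ofReal (E b N ‖w‖ * a ^ 2 / P a b N ‖w‖ ‖y‖ ^ 3) ≤ ENNReal.ofReal (1 / r ^ 6) := by
    intro y hy
    have hy1 : r < ‖y‖ := by simpa using hy.2
    apply ENNReal.ofReal_le_ofReal
    have ha0 : 0 < a := by linarith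
    have hE : E b N ‖w‖ ≤ a := by rw [ha]; exact E_le b N (norm_nonneg w) hw
    have hP : (a ^ 2 * r ^ 2) ^ 3 ≤ P a b N ‖w‖ ‖y‖ ^ 3 := by
      apply pow_le_pow_left₀ (by positivity)
      unfold P
      have h1 : a ^ 2 * r ^ 2 ≤ a ^ 2 * ‖y‖ ^ 2 := by
        apply mul_le_mul_of_nonneg_left _ (by positivity)
        exact pow_le_pow_left₀ hr.le hy1.le 2
      have h2 : 0 ≤ b ^ 2 * ‖w‖ ^ (2 * N) := by positivity
      linarith
    calc E b N ‖w‖ * a ^ 2 / P a b N ‖w‖ ‖y‖ ^ 3 ≤ a * a ^ 2 / (a ^ 2 * r ^ 2) ^ 3 := by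
          apply div_le_div₀ (by positivity) _ (by positivity) hP
          exact mul_le_mul_of_nonneg_right hE (by positivity)
      _ = 1 / (a ^ 3 * r ^ 6) := by field_simp
      _ ≤ 1 / r ^ 6 := by
          apply one_div_le_one_div_of_le (by positivity)
          have : 1 ≤ a ^ 3 := one_le_pow₀ ha1
          nlinarith [pow_pos hr 6]
  refine (setLIntegral_mono' (measurableSet_ball.diff Metric.isClosed_closedBall.measurableSet)
    hpt).trans ?_
  rw [setLIntegral_const]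
  refine (mul_le_mul_right (measure_mono sdiff_subset) _).trans ?_
  rw [volume_ball_one, ← ENNReal.ofReal_mul (by positivity)]
  apply ENNReal.ofReal_le_ofReal
  apply le_of_eq
  ring

lemma lintegral_fin_two (U : Set (ℂ × ℂ)) (hU : MeasurableSet U) (f : ℂ × ℂ → ℝ≥0∞)
    (hf : Measurable f) :
    ∫⁻ x in {x : Fin (1 + 1) → ℂ | (x 0, x 1) ∈ U}, f (x 0, x 1) = ∫⁻ q in U, f q :=
  (volume_preserving_finTwoArrow ℂ).setLIntegral_comp_preimage hU hf

lemma lintegral_fin_one (U : Set ℂ) (hU : MeasurableSet U) (f : ℂ → ℝ≥0∞)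
    (hf : Measurable f) :
    ∫⁻ x in {x : Fin 1 → ℂ | x 0 ∈ U}, f (x 0) = ∫⁻ q in U, f q :=
  (volume_preserving_funUnique (Fin 1) ℂ).setLIntegral_comp_preimage hU hf

lemma measurable_dens (a b : ℝ) (N : ℕ) :
    Measurable (fun q : ℂ × ℂ => ENNReal.ofReal (2 * dens a b N ‖q.1‖ ‖q.2‖)) := by
  unfold dens E P
  fun_prop

lemma graphVolume_theMap (a b : ℝ) (N : ℕ) (hN : 1 ≤ N) (U : Set (Fin (1 + 1) → ℂ)) :
    graphVolume (theMap a b N) U =
      ∫⁻ x in U, ENNReal.ofReal (2 * dens a b N ‖x 0‖ ‖x 1‖) := by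
  obtain ⟨M, rfl⟩ : ∃ M, N = M + 1 := ⟨N - 1, by omega⟩
  unfold graphVolume
  apply lintegral_congr
  intro x
  rw [det_theMap, Complex.ofReal_re]
  norm_num

lemma prod_bound (a b : ℝ) (N : ℕ) (S T : Set ℂ) (hS : S ⊆ Metric.ball 0 1)
    (hSm : MeasurableSet S) (C : ℝ) (hC : 0 ≤ C)
    (h : ∀ w ∈ S, ∫⁻ y in T, ENNReal.ofReal (2 * dens a b N ‖w‖ ‖y‖) ≤ ENNReal.ofReal C) :
    ∫⁻ q in S ×ˢ T, ENNReal.ofReal (2 * dens a b N ‖q.1‖ ‖q.2‖) ≤ ENNReal.ofReal (C * π) := by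
  rw [Measure.volume_eq_prod, ← Measure.prod_restrict,
    lintegral_prod _ (measurable_dens a b N).aemeasurable]
  refine (setLIntegral_mono' hSm h).trans ?_
  rw [setLIntegral_const, ENNReal.ofReal_mul hC]
  refine mul_le_mul_right ?_ _
  refine (measure_mono hS).trans ?_
  rw [volume_ball_one]

lemma shell_bound (r : ℝ) (hr : 0 < r) (N : ℕ) (hN : 1 ≤ N) (a b : ℝ) (ha1 : 1 ≤ a)
    (hb : b = (4 / r) ^ N) (ha : a = b ^ 2 * N ^ 2) :
    graphVolume (theMap a b N) (shell (1 + 1) r) ≤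
      ENNReal.ofReal (2 * (4 * π + π / r ^ 2) * π + 2 * (4 * π + π / r ^ 6) * π) := by
  rw [graphVolume_theMap a b N hN]
  have hpi := Real.pi_pos
  have ha0 : 0 < a := by linarith
  have hdm : MeasurableSet (Metric.ball (0 : ℂ) 1 \ Metric.closedBall 0 r) :=
    measurableSet_ball.diff Metric.isClosed_closedBall.measurableSet
  have hsub : shell (1 + 1) r ⊆
      {x : Fin (1 + 1) → ℂ | (x 0, x 1) ∈
        (Metric.ball (0 : ℂ) 1 \ Metric.closedBall 0 r) ×ˢ Metric.ball (0 : ℂ) 1} ∪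
      {x : Fin (1 + 1) → ℂ | (x 0, x 1) ∈
        Metric.ball (0 : ℂ) 1 ×ˢ (Metric.ball (0 : ℂ) 1 \ Metric.closedBall 0 r)} := by
    rintro x ⟨hx1, hx2⟩
    have h0 := hx1 0
    have h1 := hx1 1
    by_cases h : r < ‖x 0‖
    · left
      refine ⟨⟨by simpa using h0, by simpa using h⟩, by simpa using h1⟩
    · right
      refine ⟨by simpa using h0, by simpa using h1, ?_⟩
      simp only [Metric.mem_closedBall, dist_zero_right, not_le]
      by_contra h'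
      apply hx2
      intro i
      fin_cases i
      · exact not_lt.mp h
      · exact not_lt.mp h'
  refine (lintegral_mono_set hsub).trans ?_
  refine (lintegral_union_le _ _ _).trans ?_
  rw [lintegral_fin_two _ (hdm.prod measurableSet_ball) _ (measurable_dens a b N),
    lintegral_fin_two _ (measurableSet_ball.prod hdm) _ (measurable_dens a b N),
    ENNReal.ofReal_add (by positivity) (by positivity)]
  have hab : b ^ 2 * N ^ 2 * (2 * π / a) = 2 * π := by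
    rw [← ha]; field_simp
  gcongr
  · apply prod_bound a b N _ _ sdiff_subset hdm _ (by positivity)
    rintro w ⟨hw1, hw2⟩
    have hw : ‖w‖ ≤ 1 := by
      have : ‖w‖ < 1 := by simpa using hw1
      exact this.le
    have hwr : r < ‖w‖ := by simpa using hw2
    refine (inner_bound a b ha0 N w hw _ subset_rfl (π / r ^ 2) (by positivity)
      (T3_w a b r N hN hr hb w hwr)).trans ?_
    apply ENNReal.ofReal_le_ofReal
    rw [hab]
    linarith
  · apply prod_bound a b N _ _ subset_rfl measurableSet_ball _ (by positivity)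
    intro w hw1
    have hw : ‖w‖ ≤ 1 := by
      have : ‖w‖ < 1 := by simpa using hw1
      exact this.le
    refine (inner_bound a b ha0 N w hw _ sdiff_subset (π / r ^ 6) (by positivity)
      (T3_y a b r N hr ha1 ha w hw)).trans ?_
    apply ENNReal.ofReal_le_ofReal
    rw [hab]
    linarith

lemma slice_bound (a b : ℝ) (N : ℕ) (z : Fin 1 → ℂ) :
    graphVolume (slice (theMap a b N) z) (polydisc 1 1) ≤ ENNReal.ofReal (2 * π) := by
  have hcpos : 0 < 1 + b ^ 2 * ‖z 0‖ ^ (2 * N) := by positivity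
  have hpi := Real.pi_pos
  let g : ℂ → ℝ≥0∞ := fun y => 1 + ENNReal.ofReal (a ^ 2 * (1 + b ^ 2 * ‖z 0‖ ^ (2 * N)) /
          ((1 + b ^ 2 * ‖z 0‖ ^ (2 * N)) + a ^ 2 * ‖y‖ ^ 2) ^ 2)
  have hg : Measurable g := by fun_prop
  have h1 : graphVolume (slice (theMap a b N) z) (polydisc 1 1) =
      ∫⁻ y in {y : Fin 1 → ℂ | y 0 ∈ Metric.ball (0 : ℂ) 1}, g (y 0) := by
    unfold graphVolume
    have hset : polydisc 1 1 = {y : Fin 1 → ℂ | y 0 ∈ Metric.ball (0 : ℂ) 1} := by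
      ext y
      simp [polydisc]
    rw [hset]
    apply lintegral_congr
    intro y
    rw [det_slice, Complex.ofReal_re]
    have hP : P a b N ‖z 0‖ ‖y 0‖ = (1 + b ^ 2 * ‖z 0‖ ^ (2 * N)) + a ^ 2 * ‖y 0‖ ^ 2 := by
      unfold P; ring
    simp only [g]
    rw [hP, Nat.factorial_one, Nat.cast_one, one_mul, ENNReal.ofReal_add zero_le_one
      (by positivity), ENNReal.ofReal_one]
  rw [h1, lintegral_fin_one _ measurableSet_ball g hg]
  simp only [g]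
  rw [lintegral_add_left (by fun_prop), setLIntegral_one, volume_ball_one]
  have h2 : ENNReal.ofReal (2 * π) = ENNReal.ofReal π + ENNReal.ofReal π := by
    rw [← ENNReal.ofReal_add hpi.le hpi.le]; congr 1; ring
  rw [h2]
  gcongr
  exact integral_T1 a _ hcpos

lemma lower_bound (r : ℝ) (hr : 0 < r) (hr1 : r < 1) (N : ℕ) (hN : 1 ≤ N) (a b : ℝ)
    (ha1 : 1 ≤ a) (hb : b = (4 / r) ^ N) :
    ENNReal.ofReal (π ^ 2 * N / 27) ≤ graphVolume (theMap a b N) (polydisc (1 + 1) 1) := by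
  rw [graphVolume_theMap a b N hN]
  have hpi := Real.pi_pos
  have ha0 : 0 < a := by linarith
  have hsub : {x : Fin (1 + 1) → ℂ | (x 0, x 1) ∈
      Metric.ball (0 : ℂ) (r / 4) ×ˢ Metric.ball (0 : ℂ) (1 / a)} ⊆ polydisc (1 + 1) 1 := by
    rintro x ⟨h0, h1⟩ i
    have h0' : ‖x 0‖ < r / 4 := by simpa using h0
    have h1' : ‖x 1‖ < 1 / a := by simpa using h1
    have h1a : 1 / a ≤ 1 := by
      rw [div_le_one ha0]; exact ha1
    fin_cases i
    · show ‖x 0‖ < 1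
      linarith
    · show ‖x 1‖ < 1
      linarith
  refine le_trans ?_ (lintegral_mono_set hsub)
  rw [lintegral_fin_two _ (measurableSet_ball.prod measurableSet_ball) _ (measurable_dens a b N),
    Measure.volume_eq_prod, ← Measure.prod_restrict,
    lintegral_prod _ (measurable_dens a b N).aemeasurable]
  have hpt : ∀ w ∈ Metric.ball (0 : ℂ) (r / 4),
      ENNReal.ofReal (E b N ‖w‖) * ENNReal.ofReal (π / 27) ≤
      ∫⁻ y in Metric.ball (0 : ℂ) (1 / a), ENNReal.ofReal (2 * dens a b N ‖w‖ ‖y‖) := by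
    intro w hw
    have hw' : ‖w‖ < r / 4 := by simpa using hw
    have hE := E_nonneg b N ‖w‖
    have hβ : b ^ 2 * ‖w‖ ^ (2 * N) ≤ 1 := by
      have h1 : ‖w‖ ^ (2 * N) ≤ (r / 4) ^ (2 * N) :=
        pow_le_pow_left₀ (norm_nonneg w) hw'.le _
      calc b ^ 2 * ‖w‖ ^ (2 * N) ≤ b ^ 2 * (r / 4) ^ (2 * N) :=
            mul_le_mul_of_nonneg_left h1 (sq_nonneg b)
        _ = 1 := by
          rw [hb, ← pow_mul, mul_comm N 2, ← mul_pow]
          have : 4 / r * (r / 4) = 1 := by field_simp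
          rw [this, one_pow]
    have h2 : ∀ y ∈ Metric.ball (0 : ℂ) (1 / a),
        ENNReal.ofReal (E b N ‖w‖ * (a ^ 2 / 27)) ≤
        ENNReal.ofReal (2 * dens a b N ‖w‖ ‖y‖) := by
      intro y hy
      have hy' : ‖y‖ < 1 / a := by simpa using hy
      apply ENNReal.ofReal_le_ofReal
      have hα : a ^ 2 * ‖y‖ ^ 2 ≤ 1 := by
        have h3 : a * ‖y‖ ≤ 1 := by
          have := (lt_div_iff₀ ha0).mp hy'
          linarith
        calc a ^ 2 * ‖y‖ ^ 2 = (a * ‖y‖) ^ 2 := by ring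
          _ ≤ 1 ^ 2 := pow_le_pow_left₀ (by positivity) h3 2
          _ = 1 := one_pow 2
      have hP3 : P a b N ‖w‖ ‖y‖ ≤ 3 := by unfold P; linarith
      have hPp := P_pos a b N ‖w‖ ‖y‖
      have hP27 : P a b N ‖w‖ ‖y‖ ^ 3 ≤ 27 := by
        calc P a b N ‖w‖ ‖y‖ ^ 3 ≤ 3 ^ 3 := pow_le_pow_left₀ hPp.le hP3 3
          _ = 27 := by norm_num
      have h4 : E b N ‖w‖ * a ^ 2 / P a b N ‖w‖ ‖y‖ ^ 3 ≤ dens a b N ‖w‖ ‖y‖ := by
        unfold dens
        have : 0 ≤ E b N ‖w‖ * (1 + a ^ 2 * ‖y‖ ^ 2) / P a b N ‖w‖ ‖y‖ ^ 2 := by positivity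
        have : 0 ≤ a ^ 2 * (1 + b ^ 2 * ‖w‖ ^ (2 * N)) / P a b N ‖w‖ ‖y‖ ^ 2 := by positivity
        linarith
      have h5 : E b N ‖w‖ * a ^ 2 / 27 ≤ E b N ‖w‖ * a ^ 2 / P a b N ‖w‖ ‖y‖ ^ 3 :=
        div_le_div_of_nonneg_left (by positivity) (by positivity) hP27
      have h6 : 0 ≤ E b N ‖w‖ * a ^ 2 / 27 := by positivity
      calc E b N ‖w‖ * (a ^ 2 / 27) = E b N ‖w‖ * a ^ 2 / 27 := by ring
        _ ≤ dens a b N ‖w‖ ‖y‖ := h5.trans h4
        _ ≤ 2 * dens a b N ‖w‖ ‖y‖ := by linarith [h5.trans h4]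
    refine le_trans ?_ (setLIntegral_mono' measurableSet_ball h2)
    rw [setLIntegral_const, Complex.volume_ball]
    have h7 : ENNReal.ofReal (1 / a) ^ 2 * (NNReal.pi : ℝ≥0∞) =
        ENNReal.ofReal ((1 / a) ^ 2 * π) := by
      rw [ENNReal.ofReal_mul (by positivity), ENNReal.ofReal_pow (by positivity)]
      congr 1
      rw [← NNReal.coe_real_pi, ENNReal.ofReal_coe_nnreal]
    rw [h7, ← ENNReal.ofReal_mul (by positivity), ← ENNReal.ofReal_mul (by positivity)]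
    apply ENNReal.ofReal_le_ofReal
    apply le_of_eq
    field_simp
  refine le_trans ?_ (setLIntegral_mono' measurableSet_ball hpt)
  have hEm : Measurable (fun w : ℂ => ENNReal.ofReal (E b N ‖w‖)) := by
    unfold E
    fun_prop
  rw [lintegral_mul_const _ hEm]
  obtain ⟨M, rfl⟩ : ∃ M, N = M + 1 := ⟨N - 1, by omega⟩
  rw [integral_E b (r / 4) (by positivity) M, ← ENNReal.ofReal_mul (by positivity)]
  apply ENNReal.ofReal_le_ofReal
  apply le_of_eq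
  have h8 : b ^ 2 * (r / 4) ^ (2 * (M + 1)) = 1 := by
    rw [hb, ← pow_mul, mul_comm (M + 1) 2, ← mul_pow]
    have : 4 / r * (r / 4) = 1 := by field_simp
    rw [this, one_pow]
  calc π ^ 2 * ((M + 1 : ℕ) : ℝ) / 27 = π * (M + 1) * 1 * (π / 27) := by push_cast; ring
    _ = π * (M + 1) * (b ^ 2 * (r / 4) ^ (2 * (M + 1))) * (π / 27) := by rw [h8]
    _ = π * (M + 1) * b ^ 2 * (r / 4) ^ (2 * (M + 1)) * (π / 27) := by ring

/-- **Theorem.** For `X = P^2` with the Fubini-Study form, `n = 2`, `k = 1` and every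
`0 < r < 1` there are constants `R` and `l` such that the class `𝓕_R` contains holomorphic maps
`f : Δ^2 → P^2` with `Vol_2(Γ_{f_z}) ≤ l` for all `z ∈ Δ` and with `Vol_4(Γ_f)` arbitrarily
large. -/
theorem result : ∀ r : ℝ, 0 < r → r < 1 → ∃ R l : ℝ, 0 < R ∧ 0 < l ∧
    ∀ A : ℝ, ∃ F : (Fin (1 + 1) → ℂ) → (Fin (2 + 1) → ℂ),
      InClass 1 1 2 r R F ∧
      (∀ z ∈ polydisc 1 1, graphVolume (slice F z) (polydisc 1 1) ≤ ENNReal.ofReal l) ∧
      ENNReal.ofReal A < graphVolume F (polydisc (1 + 1) 1) := by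
  intro r hr hr1
  have hpi := Real.pi_pos
  refine ⟨2 * (4 * π + π / r ^ 2) * π + 2 * (4 * π + π / r ^ 6) * π, 2 * π, by positivity,
    by positivity, fun A => ?_⟩
  obtain ⟨N, hN⟩ := exists_nat_gt (27 * |A|)
  set b : ℝ := (4 / r) ^ (N + 1) with hb
  set a : ℝ := b ^ 2 * ((N + 1 : ℕ) : ℝ) ^ 2 with ha
  have hb1 : 1 ≤ b := by
    rw [hb]
    apply one_le_pow₀
    rw [one_le_div hr]
    linarith
  have ha1 : 1 ≤ a := by
    rw [ha]
    have h1 : (1 : ℝ) ≤ ((N + 1 : ℕ) : ℝ) := by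
      have : 1 ≤ N + 1 := by omega
      exact_mod_cast this
    have h2 : 1 ≤ b ^ 2 := one_le_pow₀ hb1
    have h3 : 1 ≤ ((N + 1 : ℕ) : ℝ) ^ 2 := one_le_pow₀ h1
    nlinarith
  have hslice : ∀ z : Fin 1 → ℂ,
      graphVolume (slice (theMap a b (N + 1)) z) (polydisc 1 1) ≤ ENNReal.ofReal (2 * π) :=
    fun z => slice_bound a b (N + 1) z
  refine ⟨theMap a b (N + 1), ⟨?_, ?_, ?_, ?_⟩, fun z _ => hslice z, ?_⟩
  · exact (differentiable_theMap a b (N + 1)).differentiableOn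
  · intro x _ h
    have := congrFun h 0
    simp [theMap] at this
  · exact shell_bound r hr (N + 1) (by omega) a b ha1 hb ha
  · intro z _
    have h1 : graphVolume (slice (theMap a b (N + 1)) z) (shell 1 r) ≤
        graphVolume (slice (theMap a b (N + 1)) z) (polydisc 1 1) :=
      lintegral_mono_set sdiff_subset
    refine (h1.trans (hslice z)).trans ?_
    apply ENNReal.ofReal_le_ofReal
    have h2 : 0 ≤ 2 * (π / r ^ 2) * π + 2 * (π / r ^ 6) * π := by positivity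
    have h3 : 2 * π ≤ 16 * (π * π) := by nlinarith [Real.pi_gt_three]
    nlinarith
  · refine lt_of_lt_of_le ?_ (lower_bound r hr hr1 (N + 1) (by omega) a b ha1 hb)
    have h1 : |A| < π ^ 2 * ((N + 1 : ℕ) : ℝ) / 27 := by
      have h2 : (1 : ℝ) ≤ π ^ 2 := by nlinarith [Real.pi_gt_three]
      have h3 : (0 : ℝ) ≤ N := Nat.cast_nonneg N
      push_cast
      rw [lt_div_iff₀ (by norm_num)]
      nlinarith
    have h4 : 0 < π ^ 2 * ((N + 1 : ℕ) : ℝ) / 27 := lt_of_le_of_lt (abs_nonneg A) h1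
    rw [ENNReal.ofReal_lt_ofReal_iff h4]
    exact lt_of_le_of_lt (le_abs_self A) h1

end Pool.Agent.Results.MP_4af734_an.UnboundedGraphVolume
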